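import Mathlib

set_option autoImplicit false

open Filter Topology Metric

namespace Pool.Agent.Results.MP_d9fe16_an.NotExtreme

/-- The unit bidisc (`ℂ × ℂ` carries the maximum norm). -/
def U : Set (ℂ × ℂ) := ball 0 1

/-- Normal Loewner chains on the bidisc. -/
structure IsChain (f : ℝ → ℂ × ℂ → ℂ × ℂ) : Prop where
  holo : ∀ t, 0 ≤ t → DifferentiableOn ℂ (f t) U
  inj : ∀ t, 0 ≤ t → Set.InjOn (f t) U
  zero : ∀ t, 0 ≤ t → f t 0 = 0
  deriv : ∀ t, 0 ≤ t →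
    fderiv ℂ (f t) 0 = ((Real.exp t : ℝ) : ℂ) • ContinuousLinearMap.id ℂ (ℂ × ℂ)
  sub : ∀ s t, 0 ≤ s → s ≤ t → f s '' U ⊆ f t '' U
  normal : ∀ t : ℕ → ℝ, (∀ n, 0 ≤ t n) → ∃ φ : ℕ → ℕ, StrictMono φ ∧ ∃ g : ℂ × ℂ → ℂ × ℂ,
    TendstoLocallyUniformlyOn (fun n z => Real.exp (-t (φ n)) • f (t (φ n)) z) g atTop U

/-- The class `S⁰(U², M)`. -/
def InS0 (M : ℝ) (g : ℂ × ℂ → ℂ × ℂ) : Prop :=
  (∃ f, IsChain f ∧ ∀ z ∈ U, f 0 z = g z) ∧ ∀ z ∈ U, ‖g z‖ ≤ M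

/-- The shear `(z₁ + b z₂², z₂)`; `F^M` is `shear (1 - 1 / M)`. -/
def shear (b : ℝ) (z : ℂ × ℂ) : ℂ × ℂ := (z.1 + b * z.2 ^ 2, z.2)

theorem memU {z : ℂ × ℂ} : z ∈ U ↔ ‖z.1‖ < 1 ∧ ‖z.2‖ < 1 := by simp [U, Prod.norm_def]

theorem inS0 {M b : ℝ} (h1 : |b| ≤ 1) (h2 : 1 + |b| ≤ M) : InS0 M (shear b) := by
  have hb : ∀ z : ℂ, ‖z‖ < 1 → ‖(b : ℂ) * z ^ 2‖ ≤ |b| := fun z hz => by
    rw [norm_mul, norm_pow, Complex.norm_real, Real.norm_eq_abs]
    exact mul_le_of_le_one_right (abs_nonneg _) (pow_le_one₀ (norm_nonneg _) hz.le)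
  have he : ∀ t, ((Real.exp t : ℝ) : ℂ) ≠ 0 := fun t => by simp
  refine ⟨⟨fun t z => ((Real.exp t : ℝ) : ℂ) • shear b z, ⟨fun t _ => ?_, fun t _ z _ w _ h => ?_,
    fun t _ => by simp [shear], fun t _ => ?_, ?_, fun t _ => ⟨id, strictMono_id, shear b, ?_⟩⟩,
    by simp⟩, fun z hz => ?_⟩
  · unfold shear; fun_prop
  · obtain ⟨a1, a2⟩ := Prod.ext_iff.1 (smul_right_injective _ (he t) h)
    simp only [shear] at a1 a2
    rw [a2] at a1
    exact Prod.ext (add_right_cancel a1) a2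
  · have := ((hasFDerivAt_fst.add (((hasFDerivAt_snd (𝕜 := ℂ) (p := (0 : ℂ × ℂ))).pow 2).const_mul
      (b : ℂ))).prodMk hasFDerivAt_snd).const_smul ((Real.exp t : ℝ) : ℂ)
    exact this.fderiv.trans (by ext <;> simp)
  · rintro s t - hst _ ⟨z, hz, rfl⟩
    rw [memU] at hz
    have l0 := Real.exp_pos (s - t)
    have l1 := Real.exp_le_one_iff.2 (sub_nonpos.2 hst)
    have e : Real.exp s = Real.exp t * Real.exp (s - t) := by rw [← Real.exp_add]; ring_nf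
    rw [e]
    generalize Real.exp (s - t) = l at *
    refine ⟨(l * z.1 + (l * (1 - l) : ℝ) * (b * z.2 ^ 2), l * z.2), memU.2 ⟨?_, ?_⟩, ?_⟩
    · refine (norm_add_le _ _).trans_lt ?_
      rw [norm_mul, norm_mul, Complex.norm_real, Complex.norm_real, Real.norm_of_nonneg l0.le,
        Real.norm_of_nonneg (by nlinarith)]
      nlinarith [hb _ hz.2, mul_lt_mul_of_pos_left hz.1 l0, mul_nonneg l0.le (sub_nonneg.2 l1)]
    · rw [norm_mul, Complex.norm_real, Real.norm_of_nonneg l0.le]; nlinarith [hz.2]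
    · ext <;> simp [shear] <;> ring
  · have : (fun (n : ℕ) z => Real.exp (-t (id n)) • ((Real.exp (t (id n)) : ℝ) : ℂ) • shear b z) =
        fun _ => shear b := by
      ext1 n; ext1 z
      rw [Complex.coe_smul, smul_smul, ← Real.exp_add]; simp
    rw [this]
    exact fun u hu x _ => ⟨U, self_mem_nhdsWithin, .of_forall fun _ _ _ => refl_mem_uniformity hu⟩
  · rw [memU] at hz
    refine max_le ((norm_add_le _ _).trans ?_) ?_ <;>
      linarith [hb _ hz.2, abs_nonneg b, show ‖(shear b z).2‖ < 1 from hz.2]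

theorem result (M : ℝ) (hM : 1 < M) : ∃ g h, InS0 M g ∧ InS0 M h ∧ (∃ z ∈ U, g z ≠ h z) ∧
    ∀ z ∈ U, shear (1 - 1 / M) z = (1 / 2 : ℝ) • g z + (1 - 1 / 2 : ℝ) • h z := by
  have h0 : 0 < 1 / M := by positivity
  have h1 : 1 / M < 1 := (div_lt_one (by linarith)).2 hM
  have h2 : 0 < M + 1 / M - 2 := by
    have : M + 1 / M - 2 = (M - 1) ^ 2 / M := by field_simp; ring
    rw [this]; exact div_pos (by nlinarith) (by linarith)
  obtain ⟨e, e0, e1, e2⟩ : ∃ e : ℝ, 0 < e ∧ e ≤ 1 / M ∧ e ≤ M + 1 / M - 2 :=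
    ⟨min _ _, lt_min h0 h2, min_le_left _ _, min_le_right _ _⟩
  refine ⟨shear (1 - 1 / M + e), shear (1 - 1 / M - e), inS0 ?_ ?_, inS0 ?_ ?_,
    ⟨(0, 1 / 2), memU.2 (by norm_num), fun h => ?_⟩, fun z _ => ?_⟩
  · rw [abs_le]; constructor <;> linarith
  · rw [← le_sub_iff_add_le', abs_le]; constructor <;> linarith
  · rw [abs_le]; constructor <;> linarith
  · rw [← le_sub_iff_add_le', abs_le]; constructor <;> linarith
  · have := mul_right_cancel₀ (by norm_num) (add_left_cancel (congrArg Prod.fst h))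
    linarith [Complex.ofReal_injective this]
  · ext <;> simp [shear] <;> ring

end Pool.Agent.Results.MP_d9fe16_an.NotExtreme
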